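import Pool.Agent.H143_HKS.Main

/-!
# The image of `D` has no border
-/

namespace Pool.Agent.H143_HKS

open List

theorem border_desc {F W : List V} {o1 o2 : ℕ} (ho1 : o1 < 6) (ho2 : o2 < 6)
    (hidx : ∀ i a, W[i]? = some a →
      F[6 * i + o1]? = some (n1 a) ∧ F[6 * i + o2]? = some (n2 a))
    (hlen : F.length = 6 * W.length) {r : ℕ} (hrW : r < W.length)
    (hb : F.take (6 * r) = F.drop (F.length - 6 * r)) :
    W.take r = W.drop (W.length - r) := by
  apply List.ext_getElem?
  intro i
  by_cases hi : i < r
  · rw [List.getElem?_take_of_lt hi, List.getElem?_drop]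
    have h1 : W[i]? = some W[i] := List.getElem?_eq_getElem (by omega)
    have h2 : W[W.length - r + i]? = some (W[W.length - r + i]'(by omega)) :=
      List.getElem?_eq_getElem (by omega)
    have e1 := hidx _ _ h1
    have e2 := hidx _ _ h2
    have key : ∀ o, o < 6 → F[6 * i + o]? = F[6 * (W.length - r + i) + o]? := by
      intro o ho
      have h3 : (F.take (6 * r))[6 * i + o]? = (F.drop (F.length - 6 * r))[6 * i + o]? := by
        rw [hb]
      rw [List.getElem?_take_of_lt (by omega), List.getElem?_drop] at h3
      rw [h3]
      congr 1
      omega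
    rw [key o1 ho1, key o2 ho2] at e1
    rw [e1.1, e1.2] at e2
    rw [h1, h2]
    congr 1
    exact n12_inj (Option.some.inj e2.1) (Option.some.inj e2.2)
  · rw [List.getElem?_eq_none (by rw [List.length_take]; omega),
      List.getElem?_eq_none (by rw [List.length_drop]; omega)]

theorem tw_idx : ∀ (W : List V) (i : ℕ) (a : V), W[i]? = some a →
    (app tw W)[6 * i + 2]? = some (n1 a) ∧ (app tw W)[6 * i + 3]? = some (n2 a) ∧
      (app tw W)[6 * i + 4]? = some (n1 a) := by
  intro W
  induction W with
  | nil => intro i a h; simp at h
  | cons b W ih =>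
    intro i a h
    rw [app_cons]
    rcases i with _ | i
    · have : b = a := by simpa using h
      subst this
      refine ⟨rfl, rfl, rfl⟩
    · rw [List.getElem?_cons_succ] at h
      have hl : (tw b).length = 6 := rfl
      obtain ⟨h1, h2, h3⟩ := ih i a h
      refine ⟨?_, ?_, ?_⟩
      · rw [List.getElem?_append_right (by omega), hl,
          show 6 * (i + 1) + 2 - 6 = 6 * i + 2 by omega, h1]
      · rw [List.getElem?_append_right (by omega), hl,
          show 6 * (i + 1) + 3 - 6 = 6 * i + 3 by omega, h2]
      · rw [List.getElem?_append_right (by omega), hl,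
          show 6 * (i + 1) + 4 - 6 = 6 * i + 4 by omega, h3]

theorem border_mod {Φ : V → List V} {m : List V} (G : Good Φ m) (hp : V.p ∈ Φ V.h) {s : ℕ}
    (hs : s < (Φ .D).length) (hb : (Φ .D).take s = (Φ .D).drop ((Φ .D).length - s))
    (hps : V.p ∈ (Φ .D).take s) : s % 6 = 0 := by
  obtain ⟨θ, hθ⟩ := typeI G hp
  obtain ⟨k, hk⟩ := (mem_lang_iff _ _).1 (G.hL _ (mem_letter .D))
  rw [app_singleton] at hk
  have h1 : occ vh ((Φ .D).take s) k := by
    have := hk
    rw [← List.take_append_drop s (Φ .D), occ_append] at this
    exact this.1
  have h2 : occ vh ((Φ .D).drop ((Φ .D).length - s)) (k + ((Φ .D).length - s)) := by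
    have := hk
    rw [← List.take_append_drop ((Φ .D).length - s) (Φ .D), occ_append] at this
    have h3 := this.2
    rwa [List.length_take, Nat.min_eq_left (by omega)] at h3
  rw [← hb] at h2
  have h3 := phase h1 h2 hps
  have h4 := (hθ .D).1
  omega

theorem main_v : ∀ (N : ℕ) (Φ : V → List V) (m : List V), Good Φ m → (Φ .h).length ≤ N →
    (m = [] ∨ m = [V.p] ∨ m = [V.g]) ∧
      ∀ s, 0 < s → s < (Φ .D).length →
        (Φ .D).take s ≠ (Φ .D).drop ((Φ .D).length - s) := by
  intro N
  induction N with
  | zero =>
    intro Φ m G hN
    exact absurd (List.length_eq_zero_iff.1 (Nat.le_zero.1 hN)) (G.hne _)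
  | succ N IH =>
    intro Φ m G hN
    by_cases hp : V.p ∈ Φ V.h
    · obtain ⟨θ, hθ⟩ := typeI G hp
      obtain ⟨c, hc, hc0⟩ := centre G hp
      rcases theta G hp with h1 | h4
      · -- phase 1
        obtain ⟨hm, Φ', G', hR⟩ := step1 G hp h1
        have hlt : (Φ' .h).length ≤ N := by
          have h2 := congrArg List.length (hR .h)
          rw [app_tw_length] at h2
          have h3 := (hθ .h).2.1
          omega
        obtain ⟨_, IH2⟩ := IH Φ' [] G' hlt
        refine ⟨Or.inr (Or.inl hm), ?_⟩
        intro s hs0 hs hb
        have hcp : c = .p := by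
          rw [hm] at hc
          simpa using hc.symm
        have hps : V.p ∈ (Φ .D).take s := by
          rw [List.mem_iff_getElem?]
          exact ⟨0, by rw [List.getElem?_take_of_lt hs0, hc0, hcp]⟩
        have hs6 := border_mod G hp hs hb hps
        have hlen : (Φ .D).length = 6 * (Φ' .D).length := by rw [hR .D, app_tw_length]
        obtain ⟨r, rfl⟩ : ∃ r, s = 6 * r := ⟨s / 6, by omega⟩
        exact IH2 r (by omega) (by omega) (border_desc (F := Φ .D) (W := Φ' .D) (o1 := 2)
          (o2 := 3) (by omega) (by omega)
          (fun i a h => by
            rw [hR .D]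
            exact ⟨(tw_idx _ i a h).1, (tw_idx _ i a h).2.1⟩) hlen (by omega) hb)
      · -- phase 4
        obtain ⟨T, hm, Φ', G', hR⟩ := step4 G hp h4
        have hlenR : ∀ y, (Φ y).length = 6 * (Φ' y).length := by
          intro y
          have h2 := congrArg List.length (hR y)
          rw [List.length_append, List.length_append, app_tw_length] at h2
          omega
        have hlt : (Φ' .h).length ≤ N := by
          have h2 := hlenR .h
          have h3 := (hθ .h).2.1
          omega
        obtain ⟨hT, IH2⟩ := IH Φ' [T] G' hlt
        have hT2 : n2 T = .g := by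
          rcases hT with h | h | h
          · simp at h
          · have : T = .p := by simpa using h
            subst this; rfl
          · have : T = .g := by simpa using h
            subst this; rfl
        have hTg : V.g ∉ pre T := by
          rcases hT with h | h | h
          · simp at h
          · have : T = .p := by simpa using h
            subst this; decide
          · have : T = .g := by simpa using h
            subst this; decide
        have hcg : c = .g := by
          rw [hm, hT2] at hc
          simpa using hc.symm
        refine ⟨Or.inr (Or.inr (by rw [hm, hT2])), ?_⟩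
        intro s hs0 hs hb
        have hD6 := (hθ .D).2.1
        have hs4 : 4 ≤ s := by
          by_contra hcon
          apply hTg
          -- `pre T` is a suffix of `Φ D`
          have hsuf : pre T <:+ Φ .D := by
            have g1 : pre T <:+ pre T ++ Φ .D := by
              rw [hR .D]
              exact List.suffix_append _ _
            have g2 : Φ .D <:+ pre T ++ Φ .D := List.suffix_append _ _
            exact List.suffix_of_suffix_length_le g1 g2 (by simp [pre]; omega)
          have hsuf2 : (Φ .D).drop ((Φ .D).length - s) <:+ pre T := by
            apply List.suffix_of_suffix_length_le (List.drop_suffix _ _) hsuf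
            rw [List.length_drop]
            simp [pre]
            omega
          have hg : V.g ∈ (Φ .D).take s := by
            rw [List.mem_iff_getElem?]
            exact ⟨0, by rw [List.getElem?_take_of_lt hs0, hc0, hcg]⟩
          rw [hb] at hg
          exact hsuf2.subset hg
        have hps : V.p ∈ (Φ .D).take s := by
          obtain ⟨k, hk⟩ := (mem_lang_iff _ _).1 (G.hL _ (mem_letter .D))
          rw [app_singleton] at hk
          have hk4 := h4 _ _ hk
          rw [List.mem_iff_getElem?]
          refine ⟨3, ?_⟩
          rw [List.getElem?_take_of_lt (by omega), occ_getElem? hk (by omega)]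
          congr 1
          rw [vh_p_iff]
          omega
        have hs6 := border_mod G hp hs hb hps
        have hlen := hlenR .D
        obtain ⟨r, rfl⟩ : ∃ r, s = 6 * r := ⟨s / 6, by omega⟩
        refine IH2 r (by omega) (by omega) (border_desc (F := Φ .D) (W := Φ' .D) (o1 := 1)
          (o2 := 0) (by omega) (by omega) (fun i a h => ?_) hlen (by omega) hb)
        have hi : i < (Φ' .D).length := (List.getElem?_eq_some_iff.1 h).1
        have hidx : ∀ j, j < 6 * (Φ' .D).length - 3 →
            (Φ .D)[j]? = (app tw (Φ' .D))[j + 3]? := by
          intro j hj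
          have g1 : (pre T ++ Φ .D)[j + 3]? = (app tw (Φ' .D) ++ pre T)[j + 3]? := by
            rw [hR .D]
          rw [List.getElem?_append_right (by simp [pre]),
            List.getElem?_append_left (by rw [app_tw_length]; omega)] at g1
          simpa [pre] using g1
        refine ⟨?_, ?_⟩
        · rw [hidx _ (by omega), show 6 * i + 1 + 3 = 6 * i + 4 by ring]
          exact (tw_idx _ i a h).2.2
        · rw [hidx _ (by omega), show 6 * i + 0 + 3 = 6 * i + 3 by ring]
          exact (tw_idx _ i a h).2.1
    · obtain ⟨hm, hd⟩ := typeII G hp
      refine ⟨Or.inl hm, ?_⟩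
      intro s hs0 hs
      omega

/-- No border, in the form used later. -/
theorem no_border {Φ : V → List V} {m : List V} (G : Good Φ m) (X B : List V) (hX : X ≠ []) :
    Φ .D ≠ X ++ B ++ X := by
  intro h
  have h1 := (main_v _ Φ m G le_rfl).2 X.length (List.length_pos_of_ne_nil hX)
    (by rw [h]; have := List.length_pos_of_ne_nil hX; simp; omega)
  apply h1
  rw [h]
  have e1 : (X ++ B ++ X).take X.length = X := by
    rw [List.append_assoc, List.take_left]
  have e2 : (X ++ B ++ X).drop ((X ++ B ++ X).length - X.length) = X := by
    rw [show (X ++ B ++ X).length - X.length = (X ++ B).length by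
      simp only [List.length_append]; omega, List.drop_left]
  rw [e1, e2]

end Pool.Agent.H143_HKS
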