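import Pool.Agent.H143_HKS.Words

/-!
# The four-letter skeleton word

`vh` is the fixed point of the constant-length morphism
`y ↦ h p h n1(y) n2(y) n1(y)` over the alphabet `{p, h, g, D}`.
-/

namespace Pool.Agent.H143_HKS

open List

/-- The alphabet of the skeleton word. -/
inductive V | p | h | g | D
  deriving DecidableEq

def n1 : V → V
  | .g => .D
  | _ => .h

def n2 : V → V
  | .p => .g
  | .h => .h
  | .g => .g
  | .D => .D

def blk (y : V) : ℕ → V
  | 0 => .h
  | 1 => .p
  | 2 => .h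
  | 3 => n1 y
  | 4 => n2 y
  | _ => n1 y

/-- The skeleton morphism. -/
def sw (y : V) : List V := [.h, .p, .h, n1 y, n2 y, n1 y]

/-- Its conjugate, in class P. -/
def tw (y : V) : List V := [.p, .h, n1 y, n2 y, n1 y, .h]

/-- The fixed point of `sw`. -/
def vh : ℕ → V
  | 0 => .h
  | n + 1 => blk (vh ((n + 1) / 6)) ((n + 1) % 6)
decreasing_by omega

theorem vh_zero : vh 0 = .h := by rw [vh]

theorem vh_blk (n j : ℕ) (hj : j < 6) : vh (6 * n + j) = blk (vh n) j := by
  by_cases h0 : 6 * n + j = 0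
  · have hn : n = 0 := by omega
    have hj0 : j = 0 := by omega
    subst hn; subst hj0
    simp [vh_zero, blk]
  · obtain ⟨k, hk⟩ : ∃ k, 6 * n + j = k + 1 := ⟨6 * n + j - 1, by omega⟩
    rw [hk, vh]
    have h1 : (k + 1) / 6 = n := by omega
    have h2 : (k + 1) % 6 = j := by omega
    rw [h1, h2]

theorem vh_0 (n : ℕ) : vh (6 * n) = .h := vh_blk n 0 (by omega)
theorem vh_1 (n : ℕ) : vh (6 * n + 1) = .p := vh_blk n 1 (by omega)
theorem vh_2 (n : ℕ) : vh (6 * n + 2) = .h := vh_blk n 2 (by omega)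
theorem vh_3 (n : ℕ) : vh (6 * n + 3) = n1 (vh n) := vh_blk n 3 (by omega)
theorem vh_4 (n : ℕ) : vh (6 * n + 4) = n2 (vh n) := vh_blk n 4 (by omega)
theorem vh_5 (n : ℕ) : vh (6 * n + 5) = n1 (vh n) := vh_blk n 5 (by omega)

theorem n1_ne_p (y : V) : n1 y ≠ .p := by cases y <;> decide
theorem n2_ne_p (y : V) : n2 y ≠ .p := by cases y <;> decide

theorem n12_inj {a b : V} (h1 : n1 a = n1 b) (h2 : n2 a = n2 b) : a = b := by
  revert h1 h2
  cases a <;> cases b <;> decide

theorem vh_p_iff (i : ℕ) : vh i = .p ↔ i % 6 = 1 := by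
  obtain ⟨n, j, hj, rfl⟩ : ∃ n j, j < 6 ∧ i = 6 * n + j := ⟨i / 6, i % 6, by omega, by omega⟩
  have hm : (6 * n + j) % 6 = j := by omega
  rw [vh_blk n j hj, hm]
  have h1 := n1_ne_p (vh n)
  have h2 := n2_ne_p (vh n)
  interval_cases j <;> simp [blk, h1, h2]

theorem vh_of_mod2 {i : ℕ} (h : i % 6 = 2) : vh i = .h := by
  have : i = 6 * (i / 6) + 2 := by omega
  rw [this, vh_2]

theorem vh_of_mod0 {i : ℕ} (h : i % 6 = 0) : vh i = .h := by
  have : i = 6 * (i / 6) := by omega
  rw [this, vh_0]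

theorem ex_vh (y : V) : ∃ n, vh n = y := by
  have h1 : vh 1 = .p := vh_1 0
  have h10 : vh 10 = .g := by
    have := vh_4 1
    rw [h1] at this
    exact this
  have h63 : vh 63 = .D := by
    have := vh_3 10
    rw [h10] at this
    exact this
  cases y
  · exact ⟨1, h1⟩
  · exact ⟨0, vh_zero⟩
  · exact ⟨10, h10⟩
  · exact ⟨63, h63⟩

theorem fac_tw_one (n : ℕ) : fac vh (6 * n + 1) 6 = tw (vh n) := by
  have e : fac vh (6 * n + 1) 6 =
      [vh (6 * n + 1), vh (6 * n + 2), vh (6 * n + 3), vh (6 * n + 4), vh (6 * n + 5),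
        vh (6 * (n + 1))] := by
    simp only [fac, List.range_succ, List.range_zero, List.nil_append,
      List.map_cons, List.map_nil, List.cons_append]
    rfl
  rw [e, vh_1, vh_2, vh_3, vh_4, vh_5, vh_0]
  rfl

theorem fac_tw (n m : ℕ) : fac vh (6 * n + 1) (6 * m) = app tw (fac vh n m) := by
  induction m with
  | zero => simp
  | succ m ih =>
    rw [show 6 * (m + 1) = 6 * m + 6 by ring, fac_add, ih, fac_add, app_append, fac_one,
      app_singleton, show 6 * n + 1 + 6 * m = 6 * (n + m) + 1 by ring, fac_tw_one]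

theorem fac_sw_one (n : ℕ) : fac vh (6 * n) 6 = sw (vh n) := by
  have e : fac vh (6 * n) 6 =
      [vh (6 * n), vh (6 * n + 1), vh (6 * n + 2), vh (6 * n + 3), vh (6 * n + 4),
        vh (6 * n + 5)] := by
    simp only [fac, List.range_succ, List.range_zero, List.nil_append,
      List.map_cons, List.map_nil, List.cons_append]
    rfl
  rw [e, vh_1, vh_2, vh_3, vh_4, vh_5, vh_0]
  rfl

theorem fac_sw (n m : ℕ) : fac vh (6 * n) (6 * m) = app sw (fac vh n m) := by
  induction m with
  | zero => simp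
  | succ m ih =>
    rw [show 6 * (m + 1) = 6 * m + 6 by ring, fac_add, ih, fac_add, app_append, fac_one,
      app_singleton, show 6 * n + 6 * m = 6 * (n + m) by ring, fac_sw_one]

/-- The three letters `p h n1` of a block. -/
def pre (y : V) : List V := [.p, .h, n1 y]

theorem fac_pre (n : ℕ) : fac vh (6 * n + 1) 3 = pre (vh n) := by
  have e : fac vh (6 * n + 1) 3 = [vh (6 * n + 1), vh (6 * n + 2), vh (6 * n + 3)] := by
    simp only [fac, List.range_succ, List.range_zero, List.nil_append,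
      List.map_cons, List.map_nil, List.cons_append]
  rw [e, vh_1, vh_2, vh_3]
  rfl

theorem tw_inj {a b : V} (h : tw a = tw b) : a = b := by
  revert h
  cases a <;> cases b <;> decide

theorem app_tw_length (w : List V) : (app tw w).length = 6 * w.length := by
  induction w with
  | nil => rfl
  | cons a w ih =>
    rw [app_cons, List.length_append, ih, List.length_cons]
    simp [tw]
    ring

theorem app_tw_inj {v w : List V} (h : app tw v = app tw w) : v = w := by
  induction v generalizing w with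
  | nil =>
    cases w with
    | nil => rfl
    | cons b w => simp [tw] at h
  | cons a v ih =>
    cases w with
    | nil => simp [tw] at h
    | cons b w =>
      rw [app_cons, app_cons] at h
      obtain ⟨h1, h2⟩ := List.append_inj h (by simp [tw])
      rw [tw_inj h1, ih h2]

theorem rev_app_tw (w : List V) : (app tw w ++ [V.p]).reverse = app tw w.reverse ++ [V.p] :=
  rev_app (P := [V.p]) rfl (by intro a; cases a <;> decide) w

theorem fac7 (n : ℕ) :
    fac vh (6 * n + 1) 7 = [.p, .h, n1 (vh n), n2 (vh n), n1 (vh n), .h, .p] := by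
  rw [show 7 = 6 + 1 by rfl, fac_add, fac_tw_one, fac_one,
    show 6 * n + 1 + 6 = 6 * (n + 1) + 1 by ring, vh_1]
  rfl

theorem ctx (y : V) : [V.p, .h, n1 y, n2 y, n1 y, .h, .p] ∈ lang vh := by
  obtain ⟨n, rfl⟩ := ex_vh y
  exact ⟨6 * n + 1, 7, (fac7 n).symm⟩

theorem ctx_hyh (y : V) : [V.h, y, V.h] ∈ lang vh := by
  cases y
  · refine ⟨0, 3, ?_⟩
    have := fac_sw_one 0
    have h6 : fac vh 0 6 = fac vh 0 3 ++ fac vh (0 + 3) 3 := fac_add vh 0 3 3
    rw [Nat.mul_zero] at this
    rw [h6] at this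
    have h2 : sw (vh 0) = [V.h, V.p, V.h] ++ [n1 (vh 0), n2 (vh 0), n1 (vh 0)] := rfl
    rw [h2] at this
    exact ((List.append_inj this (by simp)).1).symm
  · exact lang_infix (ctx .h) ⟨[V.p], [V.h, V.h, V.p], rfl⟩
  · exact lang_infix (ctx .p) ⟨[V.p, V.h], [V.h, V.p], rfl⟩
  · exact lang_infix (ctx .D) ⟨[V.p, V.h], [V.h, V.p], rfl⟩

theorem mem_letter (y : V) : [y] ∈ lang vh :=
  lang_infix (ctx_hyh y) ⟨[V.h], [V.h], rfl⟩

/-- Positions of a word containing `p` are determined modulo 6. -/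
theorem phase {w : List V} {k k' : ℕ} (h : occ vh w k) (h' : occ vh w k') (hp : V.p ∈ w) :
    k % 6 = k' % 6 := by
  obtain ⟨j, hj, hj'⟩ := List.mem_iff_getElem.1 hp
  have h1 := occ_getElem h hj
  have h2 := occ_getElem h' hj
  rw [hj'] at h1 h2
  have h3 := (vh_p_iff _).1 h1.symm
  have h4 := (vh_p_iff _).1 h2.symm
  omega

theorem no_p {w : List V} {k : ℕ} (h : occ vh w k) (hp : V.p ∉ w) {i : ℕ} (hi : i < w.length) :
    (k + i) % 6 ≠ 1 := by
  intro hc
  apply hp
  rw [List.mem_iff_getElem]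
  exact ⟨i, hi, by rw [occ_getElem h hi]; exact (vh_p_iff _).2 hc⟩

theorem p_mem_of_long {w : List V} {k : ℕ} (h : occ vh w k) (hw : 6 ≤ w.length) : V.p ∈ w := by
  by_contra hp
  have := no_p h hp (i := (7 - k % 6) % 6) (by omega)
  omega

end Pool.Agent.H143_HKS
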