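import Pool.Agent.H143_HKS.Words

/-!
# Primitive morphisms, fixed points, Class P, and the explicit morphism
-/

namespace Pool.Agent.H143_HKS

open List

variable {α : Type}

/-- The morphism `φ` is primitive: for some `k ≥ 1` every letter occurs in `φ^k(a)`,
for every letter `a`. -/
def Primitive (φ : α → List α) : Prop := ∃ k, 1 ≤ k ∧ ∀ a b, b ∈ iter φ k a

/-- `φ(u) = u`: for every `n` the word `φ(u_0 … u_{n-1})` is an initial segment of `u`
(for a primitive, hence nonerasing, morphism these words get arbitrarily long). -/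
def IsFixed (φ : α → List α) (u : ℕ → α) : Prop :=
  ∀ n, app φ (fac u 0 n) = fac u 0 (app φ (fac u 0 n)).length

/-- Class P: `φ` is primitive and `φ(a) = p q_a` with palindromes `p` and `q_a`. -/
def ClassP (φ : α → List α) : Prop :=
  Primitive φ ∧ ∃ p : List α, p.reverse = p ∧ ∀ a, ∃ q : List α, q.reverse = q ∧ φ a = p ++ q

/-- A five-letter alphabet. -/
inductive Letter | p | h | g | x | b
  deriving DecidableEq

instance : Fintype Letter := ⟨{.p, .h, .g, .x, .b}, by intro a; cases a <;> decide⟩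

/-- The morphism
`p ↦ hphhgh`, `h ↦ hphhhh`, `g ↦ hphxbxgxbx`, `x ↦ h`, `b ↦ phhxbx`. -/
def sig : Letter → List Letter
  | .p => [.h, .p, .h, .h, .g, .h]
  | .h => [.h, .p, .h, .h, .h, .h]
  | .g => [.h, .p, .h, .x, .b, .x, .g, .x, .b, .x]
  | .x => [.h]
  | .b => [.p, .h, .h, .x, .b, .x]

end Pool.Agent.H143_HKS
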