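import Pool.Agent.H143_HKS.Up

/-!
# The Class P conjecture of Hof, Knill and Simon fails

The primitive morphism `sig` on five letters,
`p ↦ hphhgh`, `h ↦ hphhhh`, `g ↦ hphxbxgxbx`, `x ↦ h`, `b ↦ phhxbx`,
has a fixed point whose language contains infinitely many palindromes but is not the language of
any fixed point of any morphism in Class P.
-/

namespace Pool.Agent.H143_HKS.Final

open Pool.Agent.H143_HKS

theorem class_p_fails :
    Primitive sig ∧
      ∃ u : ℕ → Letter, IsFixed sig u ∧
        {w : List Letter | w ∈ lang u ∧ w.reverse = w}.Infinite ∧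
        ∀ (φ : Letter → List Letter) (v : ℕ → Letter),
          ClassP φ → IsFixed φ v → lang v ≠ lang u :=
  ⟨primitive_sig, u, fixed_u, palindromes_infinite, main_neg⟩

end Pool.Agent.H143_HKS.Final
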