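import Pool.Agent.H143_HKS.Core

/-!
# Symmetric endomorphisms of the skeleton language

If a nonerasing morphism `Φ` maps the language of `vh` into itself and `Φ y ++ m` is a palindrome
for all letters `y`, with `m` of length at most one, then `Φ D` has no proper border.
-/

namespace Pool.Agent.H143_HKS

open List

structure Good (Φ : V → List V) (m : List V) : Prop where
  hm : m.length ≤ 1
  hne : ∀ y, Φ y ≠ []
  hL : ∀ w ∈ lang vh, app Φ w ∈ lang vh
  hpal : ∀ y, (Φ y ++ m).reverse = Φ y ++ m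

theorem typeII {Φ : V → List V} {m : List V} (G : Good Φ m) (hp : V.p ∉ Φ V.h) :
    m = [] ∧ (Φ V.D).length = 1 := by
  obtain ⟨k, hk⟩ := (mem_lang_iff _ _).1 (G.hL _ (ctx V.h))
  have e : app Φ [V.p, .h, n1 .h, n2 .h, n1 .h, .h, .p] =
      Φ .p ++ (app Φ [.h, .h, .h, .h, .h] ++ Φ .p) := by simp [n1, n2]
  rw [e, occ_append, occ_append] at hk
  obtain ⟨o1, o2, o3⟩ := hk
  have hlen5 : (app Φ [V.h, .h, .h, .h, .h]).length = 5 * (Φ .h).length := by
    simp; ring
  rw [hlen5] at o3
  have hnp : V.p ∉ app Φ [V.h, .h, .h, .h, .h] := by simp [hp]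
  have ha : 0 < (Φ .h).length := List.length_pos_of_ne_nil (G.hne _)
  have key : ∀ i < 5 * (Φ .h).length, (k + (Φ .p).length + i) % 6 ≠ 1 :=
    fun i hi => no_p o2 hnp (by rw [hlen5]; exact hi)
  have hq : (Φ .h).length = 1 ∧ (k + (Φ .p).length) % 6 = 2 := by
    have h1 := key ((7 - (k + (Φ .p).length) % 6) % 6)
    have h2 : ¬ ((7 - (k + (Φ .p).length) % 6) % 6 < 5 * (Φ .h).length) := by
      intro hc
      exact h1 hc (by omega)
    omega
  obtain ⟨ha1, hq2⟩ := hq
  obtain ⟨z, hz⟩ := List.length_eq_one_iff.1 ha1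
  have hzh : z = .h := by
    have e2 : app Φ [V.h, .h, .h, .h, .h] = z :: [z, z, z, z] := by simp [hz]
    rw [e2, occ_cons] at o2
    rw [← o2.1]
    exact vh_of_mod2 hq2
  subst hzh
  rw [ha1] at o3
  -- the first letter of `Φ p`
  obtain ⟨c, t, hct⟩ := List.exists_cons_of_ne_nil (G.hne .p)
  have hcp : c = .p := by
    rw [hct, occ_cons] at o3
    rw [← o3.1, vh_p_iff]
    rw [hct] at hq2
    omega
  subst hcp
  have hpp : V.p ∈ Φ .p := by rw [hct]; simp
  have hm : m = [] := by
    rcases m with _ | ⟨c, _ | ⟨d, m⟩⟩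
    · rfl
    · exfalso
      have h1 := G.hpal .h
      rw [hz] at h1
      have hc : c = .h := (by simpa using h1 : c = V.h ∧ V.h = c).1
      subst hc
      have h2 := G.hpal .p
      rw [hct, List.reverse_append] at h2
      simp at h2
    · have := G.hm
      simp at this
  refine ⟨hm, ?_⟩
  obtain ⟨k2, hk2⟩ := (mem_lang_iff _ _).1 (G.hL _ (ctx V.D))
  have e2 : app Φ [V.p, .h, n1 .D, n2 .D, n1 .D, .h, .p] =
      Φ .p ++ ([.h, .h] ++ (Φ .D ++ ([.h, .h] ++ Φ .p))) := by simp [n1, n2, hz]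
  rw [e2, occ_append, occ_append, occ_append, occ_append] at hk2
  obtain ⟨a1, a2, a3, a4, a5⟩ := hk2
  obtain ⟨k3, hk3⟩ := (mem_lang_iff _ _).1 (G.hL _ (ctx V.g))
  have e3 : app Φ [V.p, .h, n1 .g, n2 .g, n1 .g, .h, .p] =
      Φ .p ++ ([.h] ++ (Φ .D ++ (Φ .g ++ Φ .D ++ [.h] ++ Φ .p))) := by simp [n1, n2, hz]
  rw [e3, occ_append, occ_append, occ_append] at hk3
  obtain ⟨b1, b2, b3, b4⟩ := hk3
  have c1 := phase a1 o1 hpp
  have c2 := phase b1 o1 hpp
  have c3 := phase a5 o1 hpp
  have c4 : k % 6 = 1 := by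
    have := o1
    rw [hct, occ_cons] at this
    exact (vh_p_iff _).1 this.1
  simp only [List.length_cons, List.length_nil] at a3 a5 b3 c3
  have hDp : V.p ∉ Φ .D := by
    intro hc
    have := phase a3 b3 hc
    omega
  have hd : (Φ .D).length ≤ 3 := by
    by_contra hcon
    have := no_p a3 hDp (i := 3) (by omega)
    omega
  have hd0 : 0 < (Φ .D).length := List.length_pos_of_ne_nil (G.hne _)
  omega

theorem typeI {Φ : V → List V} {m : List V} (G : Good Φ m) (hp : V.p ∈ Φ V.h) :
    ∃ θ, ∀ y, (Φ y).length % 6 = 0 ∧ 6 ≤ (Φ y).length ∧ V.p ∈ Φ y ∧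
      ∀ k, occ vh (Φ y) k → k % 6 = θ := by
  have hhh : [V.h, V.h] ∈ lang vh := lang_infix (ctx_hyh .h) ⟨[], [V.h], rfl⟩
  obtain ⟨k1, hk1⟩ := (mem_lang_iff _ _).1 (G.hL _ hhh)
  have e : app Φ [V.h, V.h] = Φ .h ++ Φ .h := by simp
  rw [e, occ_append] at hk1
  have h1 := phase hk1.1 hk1.2 hp
  refine ⟨k1 % 6, fun y => ?_⟩
  obtain ⟨k, hk⟩ := (mem_lang_iff _ _).1 (G.hL _ (ctx_hyh y))
  have e2 : app Φ [V.h, y, V.h] = Φ .h ++ (Φ y ++ Φ .h) := by simp
  rw [e2, occ_append, occ_append] at hk
  obtain ⟨o1, o2, o3⟩ := hk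
  have h2 := phase o1 hk1.1 hp
  have h3 := phase o3 hk1.1 hp
  have hy0 : 0 < (Φ y).length := List.length_pos_of_ne_nil (G.hne _)
  have hy6 : (Φ y).length % 6 = 0 := by omega
  have hyp : V.p ∈ Φ y := p_mem_of_long o2 (by omega)
  refine ⟨hy6, by omega, hyp, fun k' hk' => ?_⟩
  have h4 := phase hk' o2 hyp
  omega

theorem pal_index {α : Type} {X : List α} (h : X.reverse = X) {j : ℕ} (hj : j < X.length) :
    X[j]? = X[X.length - 1 - j]? := by
  conv_lhs => rw [← h]
  rw [List.getElem?_reverse hj]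

theorem pal_phase {X : List V} {k : ℕ} (h : X.reverse = X) (ho : occ vh X k) (hp : V.p ∈ X) :
    (2 * k + X.length) % 6 = 3 := by
  obtain ⟨j, hj, hj'⟩ := List.mem_iff_getElem.1 hp
  have h1 : X[j]? = some V.p := by rw [List.getElem?_eq_getElem hj, hj']
  have h2 : X[X.length - 1 - j]? = some V.p := by rw [← pal_index h hj, h1]
  rw [occ_getElem? ho hj] at h1
  rw [occ_getElem? ho (by omega)] at h2
  have h3 := (vh_p_iff _).1 (Option.some.inj h1)
  have h4 := (vh_p_iff _).1 (Option.some.inj h2)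
  omega

/-- In type I the middle word is a single letter and it is the first letter of all images. -/
theorem centre {Φ : V → List V} {m : List V} (G : Good Φ m) (hp : V.p ∈ Φ V.h) :
    ∃ c, m = [c] ∧ (∀ y, (Φ y)[0]? = some c) := by
  obtain ⟨θ, hθ⟩ := typeI G hp
  rcases m with _ | ⟨c, _ | ⟨d, m⟩⟩
  · exfalso
    have h1 := G.hpal .h
    rw [List.append_nil] at h1
    obtain ⟨k, hk⟩ := (mem_lang_iff _ _).1 (G.hL _ (mem_letter .h))
    rw [app_singleton] at hk
    have h2 := pal_phase h1 hk hp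
    have h3 := (hθ .h).1
    omega
  · refine ⟨c, rfl, fun y => ?_⟩
    have h1 := pal_index (G.hpal y) (j := 0) (by simp)
    have h6 := (hθ y).2.1
    rw [List.getElem?_append_left (by omega)] at h1
    rw [h1]
    simp
  · have := G.hm
    simp at this

theorem theta {Φ : V → List V} {m : List V} (G : Good Φ m) (hp : V.p ∈ Φ V.h) :
    (∀ y k, occ vh (Φ y) k → k % 6 = 1) ∨ (∀ y k, occ vh (Φ y) k → k % 6 = 4) := by
  obtain ⟨θ, hθ⟩ := typeI G hp
  obtain ⟨c, hc, hc0⟩ := centre G hp
  have hhh : [V.h, V.h] ∈ lang vh := lang_infix (ctx_hyh .h) ⟨[], [V.h], rfl⟩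
  obtain ⟨k1, hk1⟩ := (mem_lang_iff _ _).1 (G.hL _ hhh)
  have e : app Φ [V.h, V.h] = Φ .h ++ Φ .h := by simp
  rw [e, occ_append] at hk1
  have hc1 : occ vh [c] (k1 + (Φ .h).length) := by
    obtain ⟨d, t, hdt⟩ := List.exists_cons_of_ne_nil (G.hne .h)
    have h2 := hk1.2
    have h3 := hc0 .h
    rw [hdt] at h3
    have hdc : d = c := by simpa using h3
    rw [hdt, occ_cons] at h2
    rw [occ_cons, ← hdc, hdt]
    exact ⟨h2.1, occ_nil _ _⟩
  have hocc : occ vh (Φ .h ++ [c]) k1 := occ_append.2 ⟨hk1.1, hc1⟩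
  have h1 := G.hpal .h
  rw [hc] at h1
  have h2 := pal_phase h1 hocc (by simp [hp])
  have h3 := (hθ .h).1
  have h4 := (hθ .h).2.2.2 k1 hk1.1
  rw [List.length_append, List.length_singleton] at h2
  have h5 : θ = 1 ∨ θ = 4 := by omega
  rcases h5 with h5 | h5
  · left
    intro y k hk
    rw [← h5]
    exact (hθ y).2.2.2 k hk
  · right
    intro y k hk
    rw [← h5]
    exact (hθ y).2.2.2 k hk

theorem step1 {Φ : V → List V} {m : List V} (G : Good Φ m) (hp : V.p ∈ Φ V.h)
    (h1 : ∀ y k, occ vh (Φ y) k → k % 6 = 1) :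
    m = [V.p] ∧ ∃ Φ' : V → List V, Good Φ' [] ∧ ∀ y, Φ y = app tw (Φ' y) := by
  obtain ⟨θ, hθ⟩ := typeI G hp
  obtain ⟨c, hc, hc0⟩ := centre G hp
  have hex : ∀ y, ∃ n, occ vh (Φ y) (6 * n + 1) := by
    intro y
    obtain ⟨k, hk⟩ := (mem_lang_iff _ _).1 (G.hL _ (mem_letter y))
    rw [app_singleton] at hk
    have := h1 y k hk
    refine ⟨k / 6, ?_⟩
    rwa [show 6 * (k / 6) + 1 = k by omega]
  choose n hn using hex
  have hR : ∀ y, Φ y = app tw (fac vh (n y) ((Φ y).length / 6)) := by
    intro y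
    have h6 := (hθ y).1
    rw [← fac_tw, show 6 * ((Φ y).length / 6) = (Φ y).length by omega]
    exact (hn y).symm
  refine ⟨?_, fun y => fac vh (n y) ((Φ y).length / 6), ?_, hR⟩
  · have h2 := hc0 .h
    have h3 := (hθ .h).2.1
    rw [occ_getElem? (hn .h) (by omega)] at h2
    rw [hc, ← Option.some.inj h2, Nat.add_zero, vh_1]
  · refine ⟨by simp, ?_, ?_, ?_⟩
    · intro y hy
      have h3 := (hθ y).2.1
      have h4 := congrArg List.length hy
      rw [fac_length, List.length_nil] at h4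
      omega
    · intro w hw
      rcases w with _ | ⟨y, w⟩
      · simpa using hw
      · obtain ⟨k, hk⟩ := (mem_lang_iff _ _).1 (G.hL _ hw)
        have hk' := hk
        rw [app_cons, occ_append] at hk'
        have h2 := h1 y k hk'.1
        have e : app Φ (y :: w) =
            app tw (app (fun y => fac vh (n y) ((Φ y).length / 6)) (y :: w)) := by
          rw [app_app]
          exact app_congr hR _
        unfold occ at hk
        rw [e, app_tw_length, show k = 6 * (k / 6) + 1 by omega, fac_tw] at hk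
        exact ⟨_, _, (app_tw_inj hk).symm⟩
    · intro y
      rw [List.append_nil]
      have h2 := G.hpal y
      have hcp : c = .p := by
        have h2 := hc0 .h
        have h3 := (hθ .h).2.1
        rw [occ_getElem? (hn .h) (by omega)] at h2
        rw [← Option.some.inj h2, Nat.add_zero, vh_1]
      rw [hc, hcp, hR y, rev_app_tw] at h2
      exact app_tw_inj (List.append_cancel_right h2)

theorem fac_four (n M : ℕ) :
    pre (vh n) ++ fac vh (6 * n + 4) (6 * M) = app tw (fac vh n M) ++ pre (vh (n + M)) := by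
  rw [← fac_tw, ← fac_pre, ← fac_pre, show 6 * n + 4 = 6 * n + 1 + 3 by ring, ← fac_add,
    show 6 * (n + M) + 1 = 6 * n + 1 + 6 * M by ring, ← fac_add, Nat.add_comm 3 (6 * M)]

theorem pre_congr {a b : V} (h : n1 a = n1 b) : pre a = pre b := by
  unfold pre
  rw [h]

theorem step4 {Φ : V → List V} {m : List V} (G : Good Φ m) (hp : V.p ∈ Φ V.h)
    (h1 : ∀ y k, occ vh (Φ y) k → k % 6 = 4) :
    ∃ T, m = [n2 T] ∧ ∃ Φ' : V → List V, Good Φ' [T] ∧
      ∀ y, pre T ++ Φ y = app tw (Φ' y) ++ pre T := by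
  obtain ⟨θ, hθ⟩ := typeI G hp
  obtain ⟨c, hc, hc0⟩ := centre G hp
  have hex : ∀ y, ∃ n, occ vh (Φ y) (6 * n + 4) := by
    intro y
    obtain ⟨k, hk⟩ := (mem_lang_iff _ _).1 (G.hL _ (mem_letter y))
    rw [app_singleton] at hk
    have := h1 y k hk
    refine ⟨k / 6, ?_⟩
    rwa [show 6 * (k / 6) + 4 = k by omega]
  choose n hn using hex
  have hM : ∀ y, ∃ M, (Φ y).length = 6 * M ∧ 1 ≤ M := by
    intro y
    have h6 := (hθ y).1
    have h7 := (hθ y).2.1
    exact ⟨(Φ y).length / 6, by omega, by omega⟩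
  choose M hM hM1 using hM
  have hR0 : ∀ y, pre (vh (n y)) ++ Φ y =
      app tw (fac vh (n y) (M y)) ++ pre (vh (n y + M y)) := by
    intro y
    rw [← fac_four, ← hM y]
    congr 1
    exact (hn y).symm
  -- first, second and last letters
  have hfirst : ∀ y, n2 (vh (n y)) = c := by
    intro y
    have h2 := hc0 y
    rw [occ_getElem? (hn y) (by have := hM y; have := hM1 y; omega), Nat.add_zero, vh_4] at h2
    exact Option.some.inj h2
  have hsecond : ∀ y, (Φ y)[1]? = some (n1 (vh (n y))) := by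
    intro y
    rw [occ_getElem? (hn y) (by have := hM y; have := hM1 y; omega),
      show 6 * n y + 4 + 1 = 6 * n y + 5 by ring, vh_5]
  have hlast : ∀ y, (Φ y)[6 * M y - 1]? = some (n1 (vh (n y + M y))) := by
    intro y
    have := hM y
    have := hM1 y
    rw [occ_getElem? (hn y) (by omega),
      show 6 * n y + 4 + (6 * M y - 1) = 6 * (n y + M y) + 3 by omega, vh_3]
  have hn1 : ∀ y, n1 (vh (n y)) = n1 (vh (n y + M y)) := by
    intro y
    have e1 := hM y
    have e2 := hM1 y
    have h2 := pal_index (G.hpal y) (j := 1) (by rw [List.length_append]; omega)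
    rw [hc, List.length_append, List.length_singleton, e1,
      show 6 * M y + 1 - 1 - 1 = 6 * M y - 1 by omega,
      List.getElem?_append_left (by omega), List.getElem?_append_left (by omega),
      hsecond, hlast] at h2
    exact Option.some.inj h2
  have hadj : ∀ y, n1 (vh (n y)) = n1 (vh (n .h)) := by
    intro y
    have hy : [V.h, y] ∈ lang vh := lang_infix (ctx_hyh y) ⟨[], [V.h], rfl⟩
    obtain ⟨k, hk⟩ := (mem_lang_iff _ _).1 (G.hL _ hy)
    have e : app Φ [V.h, y] = Φ .h ++ Φ y := by simp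
    rw [e, occ_append] at hk
    have hk4 := h1 _ _ hk.1
    have e1 := hM .h
    have e2 := hM1 .h
    have e3 := hM y
    have e4 := hM1 y
    have g1 := occ_getElem? hk.1 (j := 6 * M .h - 1) (by omega)
    have g2 := occ_getElem? hk.2 (j := 1) (by omega)
    rw [hlast, show k + (6 * M .h - 1) = 6 * (k / 6 + M .h) + 3 by omega, vh_3] at g1
    rw [hsecond, e1, show k + 6 * M .h + 1 = 6 * (k / 6 + M .h) + 5 by omega, vh_5] at g2
    rw [Option.some.inj g2, ← Option.some.inj g1, hn1 .h]
  have hT : ∀ y, vh (n y) = vh (n .h) := fun y =>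
    n12_inj (hadj y) (by rw [hfirst, hfirst])
  have hR : ∀ y, pre (vh (n .h)) ++ Φ y =
      app tw (fac vh (n y) (M y)) ++ pre (vh (n .h)) := by
    intro y
    have h2 := hR0 y
    rwa [hT y, pre_congr (hn1 y).symm, hT y] at h2
  refine ⟨vh (n .h), by rw [hc, hfirst], fun y => fac vh (n y) (M y), ?_, hR⟩
  refine ⟨by simp, ?_, ?_, ?_⟩
  · intro y hy
    have h4 := congrArg List.length hy
    rw [fac_length, List.length_nil] at h4
    have := hM1 y
    omega
  · intro w hw
    rcases w with _ | ⟨y, w⟩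
    · simpa using hw
    · obtain ⟨k, hk⟩ := (mem_lang_iff _ _).1 (G.hL _ hw)
      have hk' := hk
      rw [app_cons, occ_append] at hk'
      have h2 := h1 y k hk'.1
      have e : app tw (app (fun y => fac vh (n y) (M y)) (y :: w)) ++ pre (vh (n .h)) =
          pre (vh (n .h)) ++ app Φ (y :: w) := by
        rw [app_app]
        exact conj_app (fun a => (hR a).symm) _
      have hlen : (app Φ (y :: w)).length =
          6 * (app (fun y => fac vh (n y) (M y)) (y :: w)).length := by
        have := congrArg List.length e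
        rw [List.length_append, List.length_append, app_tw_length] at this
        omega
      have hsec : n1 (vh (k / 6)) = n1 (vh (n .h)) := by
        have e3 := hM y
        have e4 := hM1 y
        have g2 := occ_getElem? hk'.1 (j := 1) (by omega)
        rw [hsecond, hT, show k + 1 = 6 * (k / 6) + 5 by omega, vh_5] at g2
        exact (Option.some.inj g2).symm
      have hE := fac_four (k / 6) (app (fun y => fac vh (n y) (M y)) (y :: w)).length
      unfold occ at hk
      rw [show 6 * (k / 6) + 4 = k by omega, ← hlen, hk, pre_congr hsec, ← e] at hE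
      have hE2 := (List.append_inj hE (by rw [app_tw_length, app_tw_length, fac_length])).1
      exact ⟨_, _, app_tw_inj hE2⟩
  · intro y
    have h2 := G.hpal y
    have hcT : n2 (vh (n .h)) = c := hfirst .h
    have e : app tw (fac vh (n y) (M y) ++ [vh (n .h)]) ++ [V.p] =
        pre (vh (n .h)) ++ (Φ y ++ m) ++ (pre (vh (n .h))).reverse := by
      rw [app_append, app_singleton, List.append_assoc]
      have e2 : tw (vh (n .h)) ++ [V.p] =
          pre (vh (n .h)) ++ ([n2 (vh (n .h))] ++ (pre (vh (n .h))).reverse) := rfl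
      rw [e2, ← List.append_assoc, ← hR y, hcT, hc]
      simp only [List.append_assoc]
    have e3 : (app tw (fac vh (n y) (M y) ++ [vh (n .h)]) ++ [V.p]).reverse =
        app tw (fac vh (n y) (M y) ++ [vh (n .h)]) ++ [V.p] := by
      rw [e]
      simp only [List.reverse_append, List.reverse_reverse] at h2 ⊢
      rw [h2]
      simp only [List.append_assoc]
    rw [rev_app_tw] at e3
    exact app_tw_inj (List.append_cancel_right e3)

end Pool.Agent.H143_HKS
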