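import Pool.Agent.H143_HKS.Defs
import Pool.Agent.H143_HKS.Border

/-!
# From the skeleton word to the five-letter word
-/

namespace Pool.Agent.H143_HKS

open List

def e : V → List Letter
  | .p => [.p]
  | .h => [.h]
  | .g => [.g]
  | .D => [.x, .b, .x]

def pr : Letter → List V
  | .p => [.p]
  | .h => [.h]
  | .g => [.g]
  | .x => []
  | .b => [.D]

theorem e_ne (y : V) : e y ≠ [] := by cases y <;> simp [e]

theorem pr_e (w : List V) : app pr (app e w) = w := by
  rw [app_app]
  induction w with
  | nil => rfl
  | cons a w ih => rw [app_cons, ih]; cases a <;> rfl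

theorem sig_e (w : List V) : app sig (app e w) = app e (app sw w) := by
  rw [app_app, app_app]
  exact app_congr (by intro a; cases a <;> rfl) w

/-- The initial segments. -/
def E (m : ℕ) : List Letter := app e (fac vh 0 m)

theorem E_length (m : ℕ) : m ≤ (E m).length := by
  have := length_le_app (φ := e) e_ne (fac vh 0 m)
  rwa [fac_length] at this

theorem E_add (m n : ℕ) : E (m + n) = E m ++ app e (fac vh m n) := by
  unfold E
  rw [fac_add, app_append, Nat.zero_add]

theorem E_mono {m n : ℕ} (h : m ≤ n) : E m <+: E n := by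
  obtain ⟨k, rfl⟩ := Nat.exists_eq_add_of_le h
  rw [E_add]
  exact List.prefix_append _ _

/-- The five-letter fixed point. -/
def u (n : ℕ) : Letter := ((E (n + 1))[n]?).getD .h

theorem u_spec (m : ℕ) : fac u 0 (E m).length = E m := by
  apply List.ext_getElem
  · simp
  · intro j h1 h2
    rw [fac_getElem, Nat.zero_add]
    unfold u
    have h3 : j < (E (j + 1)).length := by have := E_length (j + 1); omega
    rw [List.getElem?_eq_getElem h3, Option.getD_some]
    rcases Nat.le_total (j + 1) m with h | h
    · obtain ⟨t, ht⟩ := E_mono h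
      have : (E m)[j]? = (E (j + 1))[j]? := by
        rw [← ht, List.getElem?_append_left h3]
      rw [List.getElem?_eq_getElem h3, List.getElem?_eq_getElem h2] at this
      exact (Option.some.inj this).symm
    · obtain ⟨t, ht⟩ := E_mono h
      have : (E (j + 1))[j]? = (E m)[j]? := by
        rw [← ht, List.getElem?_append_left h2]
      rw [List.getElem?_eq_getElem h3, List.getElem?_eq_getElem h2] at this
      exact Option.some.inj this

theorem fac_of_pre {α : Type} {u : ℕ → α} {w : List α} {L : ℕ} (h : w <+: fac u 0 L) :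
    w = fac u 0 w.length := by
  obtain ⟨t, ht⟩ := h
  have h1 : L = w.length + t.length := by
    have := congrArg List.length ht
    rw [List.length_append, fac_length] at this
    exact this.symm
  rw [h1, fac_add] at ht
  exact (List.append_inj ht (by simp)).1

theorem fac_pre_E (n : ℕ) : fac u 0 n <+: E n := by
  have h := E_length n
  rw [← u_spec n]
  obtain ⟨k, hk⟩ := Nat.exists_eq_add_of_le h
  rw [hk, fac_add]
  exact List.prefix_append _ _

theorem app_pre {α β : Type} {φ : α → List β} {v w : List α} (h : v <+: w) :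
    app φ v <+: app φ w := by
  obtain ⟨t, rfl⟩ := h
  rw [app_append]
  exact List.prefix_append _ _

theorem app_inf {α β : Type} {φ : α → List β} {v w : List α} (h : v <:+: w) :
    app φ v <:+: app φ w := by
  obtain ⟨s, t, rfl⟩ := h
  rw [app_append, app_append]
  exact ⟨_, _, rfl⟩

theorem fixed_u : IsFixed sig u := by
  intro n
  have h1 : app sig (fac u 0 n) <+: app sig (E n) := app_pre (fac_pre_E n)
  have h2 : app sig (E n) = E (6 * n) := by
    unfold E
    rw [sig_e, ← fac_sw]
  rw [h2, ← u_spec (6 * n)] at h1
  exact fac_of_pre h1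

theorem L1 {w : List V} (hw : w ∈ lang vh) : app e w ∈ lang u := by
  obtain ⟨i, n, rfl⟩ := hw
  have h1 : E (i + n) ∈ lang u := ⟨0, _, (u_spec _).symm⟩
  rw [E_add] at h1
  exact lang_infix h1 (List.suffix_append _ _).isInfix

theorem L2 {w : List Letter} (hw : w ∈ lang u) : app pr w ∈ lang vh := by
  obtain ⟨i, n, rfl⟩ := hw
  have h1 : fac u i n <:+: E (i + n) := by
    have h2 : fac u i n <:+: fac u 0 (i + n) := by
      rw [fac_add, Nat.zero_add]
      exact (List.suffix_append _ _).isInfix
    exact h2.trans (fac_pre_E _).isInfix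
  have h3 := app_inf (φ := pr) h1
  have h4 : app pr (E (i + n)) = fac vh 0 (i + n) := pr_e _
  rw [h4] at h3
  exact lang_infix ⟨0, _, rfl⟩ h3

/-! ### Palindromes -/

def palW : ℕ → List V
  | 0 => [.h]
  | k + 1 => app tw (palW k) ++ [.p]

theorem palW_rev (k : ℕ) : (palW k).reverse = palW k := by
  induction k with
  | zero => rfl
  | succ k ih => rw [palW, rev_app_tw, ih]

theorem palW_length (k : ℕ) : k < (palW k).length := by
  induction k with
  | zero => simp [palW]
  | succ k ih =>
    rw [palW, List.length_append, app_tw_length, List.length_singleton]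
    omega

theorem palW_lang (k : ℕ) : palW k ∈ lang vh := by
  induction k with
  | zero => exact mem_letter .h
  | succ k ih =>
    obtain ⟨i, n, h⟩ := ih
    refine ⟨6 * i + 1, 6 * n + 1, ?_⟩
    rw [palW, h, fac_add, fac_tw, fac_one, show 6 * i + 1 + 6 * n = 6 * (i + n) + 1 by ring, vh_1]

theorem rev_e (w : List V) : (app e w).reverse = app e w.reverse := by
  have := rev_app (φ := e) (P := []) rfl (by intro a; cases a <;> rfl) w
  simpa using this

theorem palindromes_infinite : {w | w ∈ lang u ∧ w.reverse = w}.Infinite := by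
  apply Set.Infinite.of_image List.length
  apply Set.infinite_of_forall_exists_gt
  intro N
  refine ⟨(app e (palW N)).length, ⟨app e (palW N), ⟨L1 (palW_lang N), ?_⟩, rfl⟩, ?_⟩
  · rw [rev_e, palW_rev]
  · have h1 := palW_length N
    have h2 := length_le_app (φ := e) e_ne (palW N)
    omega

/-! ### Symmetric morphisms -/

theorem sym_iter {α : Type} {φ : α → List α} {P : List α} (hP : P.reverse = P)
    (h : ∀ a, (φ a ++ P).reverse = φ a ++ P) (k : ℕ) :
    ∃ Q : List α, Q.reverse = Q ∧ ∀ a, (iter φ k a ++ Q).reverse = iter φ k a ++ Q := by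
  induction k with
  | zero => exact ⟨[], rfl, fun a => by simp [iter]⟩
  | succ k ih =>
    obtain ⟨Q, hQ, hQa⟩ := ih
    refine ⟨app φ Q ++ P, ?_, fun a => ?_⟩
    · rw [rev_app hP h, hQ]
    · have e1 : iter φ (k + 1) a ++ (app φ Q ++ P) = app φ (iter φ k a ++ Q) ++ P := by
        rw [iter, app_append, List.append_assoc]
      rw [e1, rev_app hP h, hQa]

theorem lang_app {α : Type} {φ : α → List α} {v : ℕ → α} (h : IsFixed φ v) {w : List α}
    (hw : w ∈ lang v) : app φ w ∈ lang v := by
  obtain ⟨i, n, rfl⟩ := hw
  have h1 : app φ (fac v 0 (i + n)) ∈ lang v := ⟨0, _, h _⟩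
  rw [fac_add, app_append, Nat.zero_add] at h1
  exact lang_infix h1 (List.suffix_append _ _).isInfix

theorem lang_iter {α : Type} {φ : α → List α} {v : ℕ → α} (h : IsFixed φ v) (k : ℕ)
    {w : List α} (hw : w ∈ lang v) : app (iter φ k) w ∈ lang v := by
  induction k with
  | zero =>
    have : app (iter φ 0) w = w := by
      induction w with
      | nil => rfl
      | cons a w ih =>
        rw [app_cons, ih (lang_infix hw (List.suffix_cons _ _).isInfix)]
        rfl
    rwa [this]
  | succ k ih =>
    have e1 : app (iter φ (k + 1)) w = app φ (app (iter φ k) w) := by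
      rw [app_app]
      rfl
    rw [e1]
    exact lang_app h ih

/-- The centred version of a symmetric morphism. -/
theorem centring {α : Type} {ψ : α → List α} {Q : List α} (hQ : Q.reverse = Q)
    (h : ∀ a, (ψ a ++ Q).reverse = ψ a ++ Q) :
    ∃ (K m : List α) (ψc : α → List α), m.length ≤ 1 ∧ (∀ a, ψ a ++ K = K ++ ψc a) ∧
      ∀ a, (ψc a ++ m).reverse = ψc a ++ m := by
  obtain ⟨K, m, hm, rfl⟩ := pal_split Q hQ
  have hmr : m.reverse = m := by
    rcases m with _ | ⟨c, _ | ⟨d, m⟩⟩
    · rfl
    · rfl
    · simp at hm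
  have hK : ∀ a, ∃ t, ψ a ++ K = K ++ t := by
    intro a
    have h1 := h a
    have p1 : ψ a ++ K <+: ψ a ++ (K ++ m ++ K.reverse) :=
      ⟨m ++ K.reverse, by simp only [List.append_assoc]⟩
    have p2 : K <+: ψ a ++ (K ++ m ++ K.reverse) := by
      rw [← h1, List.reverse_append, hQ]
      exact ⟨m ++ K.reverse ++ (ψ a).reverse, by simp only [List.append_assoc]⟩
    obtain ⟨t, ht⟩ := List.prefix_of_prefix_length_le p2 p1 (by simp)
    exact ⟨t, ht.symm⟩
  choose ψc hψc using hK
  refine ⟨K, m, ψc, hm, hψc, fun a => ?_⟩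
  have h1 := h a
  have e1 : ψ a ++ (K ++ m ++ K.reverse) = K ++ ((ψc a ++ m) ++ K.reverse) := by
    rw [← List.append_assoc, ← List.append_assoc, hψc a]
    simp only [List.append_assoc]
  rw [e1] at h1
  have e2 : (K ++ ((ψc a ++ m) ++ K.reverse)).reverse = K ++ ((ψc a ++ m).reverse ++ K.reverse) := by
    rw [List.reverse_append, List.reverse_append (as := ψc a ++ m), List.reverse_reverse,
      List.append_assoc]
  rw [e2] at h1
  exact List.append_cancel_right (List.append_cancel_left h1)

theorem main_neg (φ : Letter → List Letter) (v : ℕ → Letter) (hφ : ClassP φ)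
    (hv : IsFixed φ v) : lang v ≠ lang u := by
  intro hlang
  obtain ⟨⟨k, _, hk⟩, P, hP, hq⟩ := hφ
  have hsym : ∀ a, (φ a ++ P).reverse = φ a ++ P := by
    intro a
    obtain ⟨q, hq1, hq2⟩ := hq a
    rw [hq2]
    simp only [List.reverse_append, hP, hq1, List.append_assoc]
  obtain ⟨Q, hQ, hQa⟩ := sym_iter hP hsym k
  obtain ⟨K, m, ψ, hm, hconj, hpal⟩ := centring hQ hQa
  have hmr : m.reverse = m := by
    rcases m with _ | ⟨c, _ | ⟨d, m⟩⟩
    · rfl
    · rfl
    · simp at hm
  -- every letter occurs in every image
  have hmem : ∀ a b, b ∈ ψ a := by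
    intro a b
    have h1 := congrArg (List.count b) (hconj a)
    rw [List.count_append, List.count_append] at h1
    have h2 : 0 < List.count b (iter φ k a) := List.count_pos_iff.2 (hk a b)
    exact List.count_pos_iff.1 (by omega)
  -- the language is mapped into itself
  have hne : ∀ a, iter φ k a ≠ [] := fun a => List.ne_nil_of_mem (hk a a)
  have hψL : ∀ w ∈ lang u, app ψ w ∈ lang u := by
    intro w hw
    obtain ⟨i, n, rfl⟩ := hw
    have h1 : fac u i (n + K.length) ∈ lang u := ⟨i, _, rfl⟩
    rw [← hlang] at h1
    have h2 := lang_iter hv k h1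
    rw [hlang, fac_add, app_append] at h2
    have h3 := conj_app hconj (fac u (i + n) K.length)
    have h4 := length_le_app hne (fac u (i + n) K.length)
    rw [fac_length] at h4
    have p1 : K <+: app (iter φ k) (fac u (i + n) K.length) ++ K := by
      rw [h3]
      exact List.prefix_append _ _
    have p2 : K <+: app (iter φ k) (fac u (i + n) K.length) :=
      List.prefix_of_prefix_length_le p1 (List.prefix_append _ _) h4
    obtain ⟨t, ht⟩ := p2
    rw [← ht, ← List.append_assoc, conj_app hconj (fac u i n)] at h2
    exact lang_infix h2 ⟨K, t, rfl⟩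
  -- go down to the skeleton
  have hprne : ∀ a, app pr (ψ a) ≠ [] := by
    intro a hc
    have h1 : V.h ∈ app pr (ψ a) := by
      unfold app
      rw [List.mem_flatMap]
      exact ⟨.h, hmem a .h, by simp [pr]⟩
    rw [hc] at h1
    simp at h1
  have hrevpr : ∀ w : List Letter, (app pr w).reverse = app pr w.reverse := by
    intro w
    have := rev_app (φ := pr) (P := []) rfl (by intro a; cases a <;> rfl) w
    simpa using this
  have hG : Good (fun y => app pr (app ψ (e y))) (app pr m) := by
    refine ⟨?_, ?_, ?_, ?_⟩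
    · rcases m with _ | ⟨c, _ | ⟨d, m⟩⟩
      · simp
      · rw [app_singleton]
        cases c <;> simp [pr]
      · simp at hm
    · intro y
      cases y
      · rw [show e .p = [.p] from rfl, app_singleton]; exact hprne _
      · rw [show e .h = [.h] from rfl, app_singleton]; exact hprne _
      · rw [show e .g = [.g] from rfl, app_singleton]; exact hprne _
      · rw [show e .D = [.x, .b, .x] from rfl, app_cons, app_append]
        intro hc
        exact hprne .x (List.append_eq_nil_iff.1 hc).1
    · intro w hw
      have h1 := L2 (hψL _ (L1 hw))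
      rw [app_app, app_app] at h1
      have e1 : (fun a => app pr (app ψ (e a))) = (fun a => app (fun a => app pr (ψ a)) (e a)) := by
        funext a
        rw [app_app]
      rw [e1]
      exact h1
    · intro y
      have h1 : (app ψ (e y) ++ m).reverse = app ψ (e y) ++ m := by
        rw [rev_app hmr hpal]
        cases y <;> rfl
      rw [← app_append, hrevpr, h1]
  apply no_border hG (app pr (ψ .x)) (app pr (ψ .b)) (hprne _)
  change app pr (app ψ [.x, .b, .x]) = _
  rw [app_cons, app_cons, app_singleton, app_append, app_append, List.append_assoc]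

/-! ### Primitivity -/

theorem mem_iter_step {α : Type} {φ : α → List α} {k : ℕ} {a b c : α} (h : b ∈ iter φ k a)
    (hc : c ∈ φ b) : c ∈ iter φ (k + 1) a := by
  rw [iter]
  unfold app
  rw [List.mem_flatMap]
  exact ⟨b, h, hc⟩

theorem primitive_sig : Primitive sig := by
  refine ⟨5, by omega, ?_⟩
  -- after one step every letter yields `h` or (for `b`) also `h`
  have h1 : ∀ a, Letter.h ∈ iter sig 1 a := by
    intro a
    apply mem_iter_step (k := 0) (b := a) (by simp [iter])
    cases a <;> decide
  have h2 : ∀ a, Letter.h ∈ iter sig 2 a := fun a => mem_iter_step (h1 a) (by decide)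
  have p2 : ∀ a, Letter.p ∈ iter sig 2 a := fun a => mem_iter_step (h1 a) (by decide)
  have h3 : ∀ a, Letter.h ∈ iter sig 3 a := fun a => mem_iter_step (h2 a) (by decide)
  have p3 : ∀ a, Letter.p ∈ iter sig 3 a := fun a => mem_iter_step (h2 a) (by decide)
  have g3 : ∀ a, Letter.g ∈ iter sig 3 a := fun a => mem_iter_step (p2 a) (by decide)
  have h4 : ∀ a, Letter.h ∈ iter sig 4 a := fun a => mem_iter_step (h3 a) (by decide)
  have p4 : ∀ a, Letter.p ∈ iter sig 4 a := fun a => mem_iter_step (h3 a) (by decide)
  have g4 : ∀ a, Letter.g ∈ iter sig 4 a := fun a => mem_iter_step (p3 a) (by decide)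
  intro a b
  cases b
  · exact mem_iter_step (h4 a) (by decide)
  · exact mem_iter_step (h4 a) (by decide)
  · exact mem_iter_step (p4 a) (by decide)
  · exact mem_iter_step (g4 a) (by decide)
  · exact mem_iter_step (g4 a) (by decide)

end Pool.Agent.H143_HKS
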