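import Mathlib.Data.List.Basic
import Mathlib.Data.List.Palindrome
import Mathlib.Data.List.Infix
import Mathlib.Data.List.Range
import Mathlib.Data.Set.Finite.Basic
import Mathlib.Data.Fintype.Basic
import Mathlib.Tactic

/-!
# Words, morphisms, infinite words, languages
-/

namespace Pool.Agent.H143_HKS

open List

variable {α β γ : Type}

/-- The morphism of free monoids with the given images of the letters, applied to a word. -/
def app (φ : α → List β) (w : List α) : List β := w.flatMap φ

/-- `iter φ k a` is the word `φ^k(a)`. -/
def iter (φ : α → List α) : ℕ → α → List α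
  | 0, a => [a]
  | k + 1, a => app φ (iter φ k a)

/-- The factor of length `n` of the infinite word `u` that starts at position `i`. -/
def fac (u : ℕ → α) (i n : ℕ) : List α := (List.range n).map (fun j => u (i + j))

/-- The language of an infinite word: the set of its finite factors. -/
def lang (u : ℕ → α) : Set (List α) := {w | ∃ i n, w = fac u i n}

@[simp] theorem app_nil (φ : α → List β) : app φ [] = [] := rfl

@[simp] theorem app_cons (φ : α → List β) (a : α) (w : List α) :
    app φ (a :: w) = φ a ++ app φ w := by simp [app]

@[simp] theorem app_append (φ : α → List β) (v w : List α) :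
    app φ (v ++ w) = app φ v ++ app φ w := by simp [app]

theorem app_singleton (φ : α → List β) (a : α) : app φ [a] = φ a := by simp

theorem app_app (φ : α → List β) (ψ : β → List γ) (w : List α) :
    app ψ (app φ w) = app (fun a => app ψ (φ a)) w := by
  induction w with
  | nil => rfl
  | cons a w ih => simp [ih]

theorem app_congr {φ ψ : α → List β} (h : ∀ a, φ a = ψ a) (w : List α) : app φ w = app ψ w := by
  have : φ = ψ := funext h
  rw [this]

@[simp] theorem fac_length (u : ℕ → α) (i n : ℕ) : (fac u i n).length = n := by simp [fac]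

@[simp] theorem fac_zero (u : ℕ → α) (i : ℕ) : fac u i 0 = [] := by simp [fac]

theorem fac_getElem (u : ℕ → α) (i n j : ℕ) (h : j < (fac u i n).length) :
    (fac u i n)[j] = u (i + j) := by simp [fac]

theorem fac_getElem? (u : ℕ → α) (i n j : ℕ) (h : j < n) :
    (fac u i n)[j]? = some (u (i + j)) := by
  simp [fac, h]

theorem fac_add (u : ℕ → α) (i m n : ℕ) : fac u i (m + n) = fac u i m ++ fac u (i + m) n := by
  apply List.ext_getElem
  · simp
  · intro j h1 h2
    rw [fac_getElem]
    by_cases hj : j < m
    · rw [List.getElem_append_left (by simpa using hj), fac_getElem]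
    · rw [List.getElem_append_right (by simpa using hj), fac_getElem]
      congr 1
      simp
      omega

theorem fac_succ (u : ℕ → α) (i n : ℕ) : fac u i (n + 1) = u i :: fac u (i + 1) n := by
  rw [Nat.add_comm n 1, fac_add]
  simp [fac]

theorem fac_one (u : ℕ → α) (i : ℕ) : fac u i 1 = [u i] := by simp [fac]

theorem fac_eq_iff (u v : ℕ → α) (i j n : ℕ) :
    fac u i n = fac v j n ↔ ∀ k < n, u (i + k) = v (j + k) := by
  constructor
  · intro h k hk
    have h2 : (fac u i n)[k]? = (fac v j n)[k]? := by rw [h]
    rw [fac_getElem? u i n k hk, fac_getElem? v j n k hk] at h2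
    exact Option.some.inj h2
  · intro h
    apply List.ext_getElem
    · simp
    · intro k h1 h2
      rw [fac_getElem, fac_getElem]
      exact h k (by simpa using h1)

/-- `occ u w k`: the word `w` occurs in `u` at position `k`. -/
def occ (u : ℕ → α) (w : List α) (k : ℕ) : Prop := fac u k w.length = w

theorem mem_lang_iff (u : ℕ → α) (w : List α) : w ∈ lang u ↔ ∃ k, occ u w k := by
  constructor
  · rintro ⟨i, n, rfl⟩
    exact ⟨i, by simp [occ]⟩
  · rintro ⟨k, hk⟩
    exact ⟨k, w.length, hk.symm⟩

theorem occ_fac (u : ℕ → α) (i n : ℕ) : occ u (fac u i n) i := by simp [occ]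

theorem occ_append {u : ℕ → α} {v w : List α} {k : ℕ} :
    occ u (v ++ w) k ↔ occ u v k ∧ occ u w (k + v.length) := by
  unfold occ
  rw [List.length_append, fac_add]
  constructor
  · intro h
    exact List.append_inj h (by simp)
  · rintro ⟨h1, h2⟩
    rw [h1, h2]

theorem occ_getElem? {u : ℕ → α} {w : List α} {k : ℕ} (h : occ u w k) {j : ℕ}
    (hj : j < w.length) : w[j]? = some (u (k + j)) := by
  conv_lhs => rw [← h]
  exact fac_getElem? u k w.length j hj

theorem occ_getElem {u : ℕ → α} {w : List α} {k : ℕ} (h : occ u w k) {j : ℕ}
    (hj : j < w.length) : w[j] = u (k + j) := by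
  have := occ_getElem? h hj
  rw [List.getElem?_eq_getElem hj] at this
  exact Option.some.inj this

theorem occ_cons {u : ℕ → α} {a : α} {w : List α} {k : ℕ} :
    occ u (a :: w) k ↔ u k = a ∧ occ u w (k + 1) := by
  unfold occ
  rw [List.length_cons, fac_succ]
  simp

theorem occ_nil (u : ℕ → α) (k : ℕ) : occ u [] k := by simp [occ]

theorem lang_infix {u : ℕ → α} {w w' : List α} (h : w' ∈ lang u) (hw : w <:+: w') :
    w ∈ lang u := by
  obtain ⟨s, t, rfl⟩ := hw
  rw [mem_lang_iff] at h ⊢
  obtain ⟨k, hk⟩ := h
  rw [occ_append, occ_append] at hk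
  exact ⟨_, hk.1.2⟩

/-- The palindrome property propagates along a morphism. -/
theorem rev_app {φ : α → List β} {P : List β} (hP : P.reverse = P)
    (h : ∀ a, (φ a ++ P).reverse = φ a ++ P) (w : List α) :
    (app φ w ++ P).reverse = app φ w.reverse ++ P := by
  induction w with
  | nil => simpa using hP
  | cons a w ih =>
    have h1 : P ++ (φ a).reverse = φ a ++ P := by
      have := h a
      rwa [List.reverse_append, hP] at this
    calc (app φ (a :: w) ++ P).reverse
        = (app φ w ++ P).reverse ++ (φ a).reverse := by
          simp [List.append_assoc]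
      _ = app φ w.reverse ++ (P ++ (φ a).reverse) := by rw [ih, List.append_assoc]
      _ = app φ w.reverse ++ (φ a ++ P) := by rw [h1]
      _ = app φ (a :: w).reverse ++ P := by simp [List.append_assoc]

theorem pal_split (Q : List α) (hQ : Q.reverse = Q) :
    ∃ K m : List α, m.length ≤ 1 ∧ Q = K ++ m ++ K.reverse := by
  have h : List.Palindrome Q := List.Palindrome.of_reverse_eq hQ
  induction h with
  | nil => exact ⟨[], [], by simp, by simp⟩
  | singleton a => exact ⟨[], [a], by simp, by simp⟩
  | @cons_concat a l hl ih =>
    obtain ⟨K, m, hm, h⟩ := ih hl.reverse_eq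
    refine ⟨a :: K, m, hm, ?_⟩
    rw [h]
    simp

/-- Moving a common word around: a conjugate morphism. -/
theorem conj_app {φ ψ : α → List β} {K : List β} (h : ∀ a, φ a ++ K = K ++ ψ a) (w : List α) :
    app φ w ++ K = K ++ app ψ w := by
  induction w with
  | nil => simp
  | cons a w ih =>
    rw [app_cons, app_cons, List.append_assoc, ih, ← List.append_assoc, h, List.append_assoc]

theorem length_le_app {φ : α → List β} (h : ∀ a, φ a ≠ []) (w : List α) :
    w.length ≤ (app φ w).length := by
  induction w with
  | nil => simp
  | cons a w ih =>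
    have : 0 < (φ a).length := List.length_pos_of_ne_nil (h a)
    simp only [app_cons, List.length_append, List.length_cons]
    omega

theorem app_ne_nil {φ : α → List β} (h : ∀ a, φ a ≠ []) {w : List α} (hw : w ≠ []) :
    app φ w ≠ [] := by
  have h1 := length_le_app h w
  have h2 : 0 < w.length := List.length_pos_of_ne_nil hw
  intro h3
  rw [h3] at h1
  simp at h1
  exact hw h1

end Pool.Agent.H143_HKS
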